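import Mathlib

/-!
# Positive definite completions
-/

set_option autoImplicit false
set_option linter.unusedSectionVars false

open Matrix Filter Topology

namespace Pool.Agent.X288.DM

variable {N : Type*} [Fintype N] [DecidableEq N]

/-- positive definite matrices are Gram matrices -/
theorem exists_gram {K : Matrix N N ℝ} (hK : K.PosDef) :
    ∃ B : Matrix N N ℝ, IsUnit B ∧ K = Bᵀ * B := by
  open scoped MatrixOrder ComplexOrder in
  obtain ⟨B, hB⟩ := CStarAlgebra.nonneg_iff_eq_star_mul_self.mp hK.posSemidef.nonneg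
  have hB' : K = Bᵀ * B := by rw [hB, star_eq_conjTranspose, conjTranspose_eq_transpose_of_trivial]
  refine ⟨B, ?_, hB'⟩
  rw [isUnit_iff_isUnit_det]
  have h1 : K.det ≠ 0 := hK.det_pos.ne'
  rw [hB', det_mul] at h1
  exact isUnit_iff_ne_zero.2 (right_ne_zero_of_mul h1)

/-- `tr (K' D K D) = 0` only for `D = 0` -/
theorem eq_zero_of_trace {K K' D : Matrix N N ℝ} (hK : K.PosDef) (hK' : K'.PosDef) (hD : Dᵀ = D)
    (h : (K' * D * K * D).trace = 0) : D = 0 := by
  obtain ⟨B, hB, hKB⟩ := exists_gram hK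
  obtain ⟨B', hB', hKB'⟩ := exists_gram hK'
  have h1 : (K' * D * K * D).trace = ((B' * D * Bᵀ)ᵀ * (B' * D * Bᵀ)).trace := by
    rw [hKB, hKB', transpose_mul, transpose_mul, transpose_transpose, hD,
      trace_mul_comm (B * (D * B'ᵀ)) (B' * D * Bᵀ)]
    have : B'ᵀ * B' * D * (Bᵀ * B) * D = B'ᵀ * (B' * D * Bᵀ * (B * D)) := by
      simp only [Matrix.mul_assoc]
    rw [this, trace_mul_comm]
    simp only [Matrix.mul_assoc]
  rw [h1] at h
  have h2 : B' * D * Bᵀ = 0 := by
    have := trace_conjTranspose_mul_self_eq_zero_iff (A := B' * D * Bᵀ)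
    rw [conjTranspose_eq_transpose_of_trivial] at this
    exact this.1 h
  have hBt : IsUnit Bᵀ := (isUnit_transpose B).2 hB
  have h3 : B' * D = 0 := by
    have : (B' * D) * Bᵀ = 0 * Bᵀ := by rw [h2, zero_mul]
    exact hBt.mul_right_cancel this
  have : B' * D = B' * 0 := by rw [h3, mul_zero]
  exact hB'.mul_left_cancel this

/-- the set of parameters where a continuous family of symmetric matrices is positive definite is
open -/
theorem isOpen_pd {X : Type*} [TopologicalSpace X] (A : X → Matrix N N ℝ) (hA : Continuous A)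
    (hs : ∀ x, (A x).IsHermitian) : IsOpen {x | (A x).PosDef} := by
  have iff' : ∀ x, (A x).PosDef ↔ ∀ v ∈ Metric.sphere (0 : N → ℝ) 1, 0 < v ⬝ᵥ (A x *ᵥ v) := by
    intro x
    rw [posDef_iff_dotProduct_mulVec]
    constructor
    · rintro ⟨-, h⟩ v hv
      have h1 : v ≠ 0 := by rintro rfl; simp at hv
      exact h h1
    · intro h
      refine ⟨hs x, fun v hv => ?_⟩
      have hn : 0 < ‖v‖ := norm_pos_iff.2 hv
      have h1 : (‖v‖⁻¹ : ℝ) • v ∈ Metric.sphere (0 : N → ℝ) 1 := by
        rw [mem_sphere_zero_iff_norm, norm_smul, norm_inv, norm_norm, inv_mul_cancel₀ hn.ne']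
      have h2 := h _ h1
      rw [mulVec_smul, dotProduct_smul, smul_dotProduct, smul_eq_mul, smul_eq_mul] at h2
      have h3 : 0 < (‖v‖⁻¹ : ℝ) := by positivity
      have h4 := (mul_pos_iff_of_pos_left h3).1 h2
      exact (mul_pos_iff_of_pos_left h3).1 h4
  have hq : Continuous fun p : X × (N → ℝ) => p.2 ⬝ᵥ (A p.1 *ᵥ p.2) :=
    Continuous.dotProduct continuous_snd
      (Continuous.matrix_mulVec (hA.comp continuous_fst) continuous_snd)
  rw [isOpen_iff_mem_nhds]
  intro y hy
  have h1 : ∀ᶠ z in 𝓝 y, ∀ v ∈ Metric.sphere (0 : N → ℝ) 1, 0 < v ⬝ᵥ (A z *ᵥ v) := by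
    refine (isCompact_sphere (0 : N → ℝ) 1).eventually_forall_of_forall_eventually
      (P := fun z v => 0 < v ⬝ᵥ (A z *ᵥ v)) ?_
    intro v hv
    exact (hq.continuousAt (x := (y, v))).eventually_const_lt ((iff' y).1 hy v hv)
  filter_upwards [h1] with z hz
  exact (iff' z).2 hz

/-- entries of positive semidefinite matrices with unit diagonal -/
theorem abs_le_one {A : Matrix N N ℝ} (hA : A.PosSemidef) (h1 : ∀ i, A i i = 1) (i j : N) :
    |A i j| ≤ 1 := by
  rcases eq_or_ne i j with rfl | hij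
  · rw [h1]; simp
  have hs : A j i = A i j := by
    have := hA.isHermitian.apply i j
    simpa using this
  have key : ∀ c : ℝ, 0 ≤ 1 + 2 * c * A i j + c ^ 2 := by
    intro c
    have h := (posSemidef_iff_dotProduct_mulVec.1 hA).2 (Pi.single i 1 + c • Pi.single j 1)
    have e : star (Pi.single i 1 + c • Pi.single j 1 : N → ℝ) ⬝ᵥ
        (A *ᵥ (Pi.single i 1 + c • Pi.single j 1)) = 1 + 2 * c * A i j + c ^ 2 := by
      rw [star_trivial, mulVec_add, mulVec_smul, add_dotProduct, dotProduct_add, dotProduct_add,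
        smul_dotProduct, smul_dotProduct, dotProduct_smul, dotProduct_smul]
      simp only [mulVec_single_one, single_dotProduct, one_mul, smul_eq_mul, Matrix.col_apply]
      rw [h1, h1, hs]
      ring
    rw [e] at h
    exact h
  have h2 := key 1
  have h3 := key (-1)
  rw [abs_le]
  constructor <;> linarith

/-- first order condition at a maximum of the determinant -/
theorem trace_eq_zero {A D : Matrix N N ℝ} (hA : A.PosDef)
    (hmax : ∀ᶠ t in 𝓝 (0 : ℝ), (A + t • D).det ≤ A.det) : (A⁻¹ * D).trace = 0 := by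
  have hd : 0 < A.det := hA.det_pos
  have hu : IsUnit A.det := isUnit_iff_ne_zero.2 hd.ne'
  set r : Polynomial ℝ :=
    (det (1 + (Polynomial.X : Polynomial ℝ) • (A⁻¹ * D).map Polynomial.C)).divX.divX with hr
  have e : ∀ t : ℝ, (A + t • D).det = A.det * (1 + (A⁻¹ * D).trace * t + r.eval t * t ^ 2) := by
    intro t
    rw [← det_one_add_smul t (A⁻¹ * D), ← det_mul, mul_add, mul_one, mul_smul_comm,
      mul_nonsing_inv_cancel_left _ _ hu]
  have h1 : HasDerivAt (fun t : ℝ => (A⁻¹ * D).trace * t + r.eval t * t ^ 2)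
      ((A⁻¹ * D).trace) 0 := by
    have h2 : HasDerivAt (fun t : ℝ => (A⁻¹ * D).trace * t) ((A⁻¹ * D).trace * 1) 0 :=
      (hasDerivAt_id (0 : ℝ)).const_mul _
    have h3 : HasDerivAt (fun t : ℝ => r.eval t * t ^ 2)
        (r.derivative.eval 0 * (0 : ℝ) ^ 2 + r.eval 0 * ((2 : ℕ) * (0 : ℝ) ^ (2 - 1))) 0 :=
      (r.hasDerivAt 0).mul (hasDerivAt_pow 2 0)
    have h4 := h2.fun_add h3
    have h5 : (A⁻¹ * D).trace * 1 + (r.derivative.eval 0 * (0 : ℝ) ^ 2 +
        r.eval 0 * ((2 : ℕ) * (0 : ℝ) ^ (2 - 1))) = (A⁻¹ * D).trace := by norm_num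
    rw [h5] at h4
    exact h4
  have h2 : IsLocalMax (fun t : ℝ => (A⁻¹ * D).trace * t + r.eval t * t ^ 2) 0 := by
    filter_upwards [hmax] with t ht
    rw [e t] at ht
    have h3 : 1 + (A⁻¹ * D).trace * t + r.eval t * t ^ 2 ≤ 1 := by
      by_contra hc
      rw [not_le] at hc
      have := mul_lt_mul_of_pos_left hc hd
      linarith
    simp
    linarith
  exact h2.hasDerivAt_eq_zero h1

end Pool.Agent.X288.DM
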