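import Pool.Agent.X288.DM.Basic

/-!
# The completion map
-/

set_option autoImplicit false
set_option linter.unusedSectionVars false

open Matrix Filter Topology

namespace Pool.Agent.X288.DM

variable {N : Type*} [Fintype N] [DecidableEq N]

open Classical in
/-- the symmetric matrix with entries `z` on the pairs in `P` and zeros elsewhere -/
noncomputable def mat (P : Set (Sym2 N)) : (P → ℝ) →ₗ[ℝ] Matrix N N ℝ where
  toFun z := Matrix.of fun i j => if h : s(i, j) ∈ P then z ⟨s(i, j), h⟩ else 0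
  map_add' z w := by
    ext i j
    simp only [of_apply, Matrix.add_apply, Pi.add_apply]
    split_ifs <;> simp
  map_smul' c z := by
    ext i j
    simp only [of_apply, Matrix.smul_apply, Pi.smul_apply, RingHom.id_apply]
    split_ifs <;> simp

theorem mat_mem {P : Set (Sym2 N)} (z : P → ℝ) {i j : N} (h : s(i, j) ∈ P) :
    mat P z i j = z ⟨s(i, j), h⟩ := by
  simp [mat, h]

theorem mat_not {P : Set (Sym2 N)} (z : P → ℝ) {i j : N} (h : s(i, j) ∉ P) :
    mat P z i j = 0 := by
  simp [mat, h]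

theorem mat_transpose (P : Set (Sym2 N)) (z : P → ℝ) : (mat P z)ᵀ = mat P z := by
  ext i j
  rw [transpose_apply]
  by_cases h : s(i, j) ∈ P
  · have h' : s(j, i) ∈ P := by rw [Sym2.eq_swap]; exact h
    rw [mat_mem z h, mat_mem z h']
    congr 1
    exact Subtype.ext Sym2.eq_swap
  · have h' : s(j, i) ∉ P := by rw [Sym2.eq_swap]; exact h
    rw [mat_not z h, mat_not z h']

theorem mat_inj {P : Set (Sym2 N)} {z : P → ℝ} (h : mat P z = 0) : z = 0 := by
  funext ⟨e, he⟩
  induction e using Sym2.ind with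
  | _ i j =>
    have h1 := congrFun (congrFun h i) j
    rw [mat_mem z he] at h1
    exact h1

variable (P Q : Set (Sym2 N)) [Fintype P] [Fintype Q]

/-- the matrix with parameters `s` on `P` and `y` on `Q`, ones on the diagonal, zeros elsewhere -/
noncomputable def A (p : (P → ℝ) × (Q → ℝ)) : Matrix N N ℝ := 1 + (mat P p.1 + mat Q p.2)

theorem A_symm (p : (P → ℝ) × (Q → ℝ)) : (A P Q p).IsHermitian := by
  unfold A
  rw [IsHermitian, conjTranspose_eq_transpose_of_trivial, transpose_add, transpose_add,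
    mat_transpose, mat_transpose, transpose_one]

theorem A_cont : Continuous (A P Q) := by
  have h1 := (mat P).continuous_of_finiteDimensional
  have h2 := (mat Q).continuous_of_finiteDimensional
  unfold A
  fun_prop

theorem A_diag (hP : ∀ e ∈ P, ¬ e.IsDiag) (hQ : ∀ e ∈ Q, ¬ e.IsDiag) (p : (P → ℝ) × (Q → ℝ))
    (i : N) : A P Q p i i = 1 := by
  have h1 : s(i, i) ∉ P := fun h => hP _ h (by simp)
  have h2 : s(i, i) ∉ Q := fun h => hQ _ h (by simp)
  simp [A, mat_not _ h1, mat_not _ h2]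

/-- the entries of the inverse on `Q` (times two) -/
noncomputable def F (p : (P → ℝ) × (Q → ℝ)) (e : Q) : ℝ :=
  ((A P Q p)⁻¹ * mat Q (Pi.single e 1)).trace

theorem trace_of_single {K : Matrix N N ℝ} (h : ∀ e : Q, (K * mat Q (Pi.single e 1)).trace = 0)
    (δ : Q → ℝ) : (K * mat Q δ).trace = 0 := by
  let ℓ : (Q → ℝ) →ₗ[ℝ] ℝ := (traceLinearMap N ℝ ℝ) ∘ₗ (LinearMap.mulLeft ℝ K) ∘ₗ (mat Q)
  have : ℓ = 0 := by
    apply (Pi.basisFun ℝ Q).ext
    intro e
    rw [Pi.basisFun_apply]
    exact h e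
  exact LinearMap.congr_fun this δ

theorem unique {s : P → ℝ} {y y' : Q → ℝ} (h : (A P Q (s, y)).PosDef) (h' : (A P Q (s, y')).PosDef)
    (hF : F P Q (s, y) = 0) (hF' : F P Q (s, y') = 0) : y = y' := by
  have hD : A P Q (s, y) - A P Q (s, y') = mat Q (y - y') := by
    unfold A
    rw [map_sub]
    simp only
    abel
  have t1 := trace_of_single Q (fun e => congrFun hF e) (y - y')
  have t2 := trace_of_single Q (fun e => congrFun hF' e) (y - y')
  have u1 : IsUnit (A P Q (s, y)).det := isUnit_iff_ne_zero.2 h.det_pos.ne'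
  have u2 : IsUnit (A P Q (s, y')).det := isUnit_iff_ne_zero.2 h'.det_pos.ne'
  have h3 : (A P Q (s, y'))⁻¹ * mat Q (y - y') * (A P Q (s, y))⁻¹ =
      (A P Q (s, y'))⁻¹ - (A P Q (s, y))⁻¹ := by
    rw [← hD, mul_sub, sub_mul, nonsing_inv_mul _ u2, one_mul, mul_assoc, mul_nonsing_inv _ u1,
      mul_one]
  have h4 : ((A P Q (s, y'))⁻¹ * mat Q (y - y') * (A P Q (s, y))⁻¹ * mat Q (y - y')).trace = 0 := by
    rw [h3, sub_mul, trace_sub, t1, t2, sub_zero]
  have h5 := eq_zero_of_trace h.inv h'.inv (mat_transpose Q (y - y')) h4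
  exact sub_eq_zero.1 (mat_inj h5)

theorem exists_completion (hP : ∀ e ∈ P, ¬ e.IsDiag) (hQ : ∀ e ∈ Q, ¬ e.IsDiag)
    (hPQ : Disjoint P Q) {s : P → ℝ} {y₀ : Q → ℝ} (h0 : (A P Q (s, y₀)).PosDef) :
    ∃ y, (A P Q (s, y)).PosDef ∧ F P Q (s, y) = 0 := by
  have hAc : Continuous fun y : Q → ℝ => A P Q (s, y) := (A_cont P Q).comp (by fun_prop)
  have hC : IsCompact {y : Q → ℝ | (A P Q (s, y)).PosSemidef} := by
    apply Metric.isCompact_of_isClosed_isBounded
    · have : {y : Q → ℝ | (A P Q (s, y)).PosSemidef} =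
          ⋂ v : N → ℝ, {y | 0 ≤ v ⬝ᵥ (A P Q (s, y) *ᵥ v)} := by
        ext y
        rw [Set.mem_iInter, Set.mem_ofPred_eq, posSemidef_iff_dotProduct_mulVec]
        exact ⟨fun h v => h.2 v, fun h => ⟨A_symm P Q _, fun v => h v⟩⟩
      rw [this]
      refine isClosed_iInter fun v => isClosed_le continuous_const ?_
      exact Continuous.dotProduct continuous_const (Continuous.matrix_mulVec hAc continuous_const)
    · refine (Metric.isBounded_closedBall (x := (0 : Q → ℝ)) (r := 1)).subset ?_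
      intro y hy
      rw [mem_closedBall_zero_iff, pi_norm_le_iff_of_nonneg zero_le_one]
      rintro ⟨e, he⟩
      induction e using Sym2.ind with
      | _ i j =>
        have h1 := abs_le_one hy (A_diag P Q hP hQ (s, y)) i j
        have hne : i ≠ j := fun h => hQ _ he (by rw [h]; simp)
        have hnP : s(i, j) ∉ P := fun h => Set.disjoint_left.1 hPQ h he
        have h2 : A P Q (s, y) i j = y ⟨s(i, j), he⟩ := by
          simp [A, mat_mem y he, mat_not s hnP, one_apply_ne hne]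
        rw [h2] at h1
        exact h1
  obtain ⟨y, hy, hmax⟩ := hC.exists_isMaxOn ⟨y₀, h0.posSemidef⟩
    (f := fun y => (A P Q (s, y)).det) (hAc.matrix_det).continuousOn
  have hdet : 0 < (A P Q (s, y)).det := lt_of_lt_of_le h0.det_pos (hmax h0.posSemidef)
  have hpd : (A P Q (s, y)).PosDef := (PosSemidef.posDef_iff_det_ne_zero hy).2 hdet.ne'
  refine ⟨y, hpd, ?_⟩
  funext e
  unfold F
  apply trace_eq_zero hpd
  have e1 : ∀ t : ℝ, A P Q (s, y) + t • mat Q (Pi.single e 1) =
      A P Q (s, y + t • Pi.single e 1) := by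
    intro t
    unfold A
    rw [map_add, map_smul]
    simp only
    abel
  have hopen := isOpen_pd (fun t : ℝ => A P Q (s, y + t • Pi.single e 1))
    ((A_cont P Q).comp (by fun_prop)) (fun t => A_symm P Q _)
  have hmem : (0 : ℝ) ∈ {t : ℝ | (A P Q (s, y + t • Pi.single e 1)).PosDef} := by
    show (A P Q (s, y + (0 : ℝ) • Pi.single e 1)).PosDef
    rw [zero_smul, add_zero]
    exact hpd
  filter_upwards [hopen.mem_nhds hmem] with t ht
  rw [e1]
  exact hmax (PosDef.posSemidef ht)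

/-- the set of completable parameters -/
def S : Set (P → ℝ) := {s | ∃ y, (A P Q (s, y)).PosDef}

open Classical in
/-- the completion -/
noncomputable def Y (s : P → ℝ) : Q → ℝ :=
  if h : ∃ y, (A P Q (s, y)).PosDef ∧ F P Q (s, y) = 0 then h.choose else 0

theorem Y_spec (hP : ∀ e ∈ P, ¬ e.IsDiag) (hQ : ∀ e ∈ Q, ¬ e.IsDiag) (hPQ : Disjoint P Q)
    {s : P → ℝ} (hs : s ∈ S P Q) :
    (A P Q (s, Y P Q s)).PosDef ∧ F P Q (s, Y P Q s) = 0 := by
  obtain ⟨y₀, h0⟩ := hs
  have h := exists_completion P Q hP hQ hPQ h0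
  unfold Y
  rw [dif_pos h]
  exact h.choose_spec

theorem Y_eq {s : P → ℝ} {y : Q → ℝ} (h : (A P Q (s, y)).PosDef) (hF : F P Q (s, y) = 0) :
    Y P Q s = y := by
  have h' : ∃ y, (A P Q (s, y)).PosDef ∧ F P Q (s, y) = 0 := ⟨y, h, hF⟩
  unfold Y
  rw [dif_pos h']
  exact unique P Q h'.choose_spec.1 h h'.choose_spec.2 hF

theorem S_open : IsOpen (S P Q) := by
  have h : S P Q = Prod.fst '' {p : (P → ℝ) × (Q → ℝ) | (A P Q p).PosDef} := by
    ext s
    constructor
    · rintro ⟨y, hy⟩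
      exact ⟨(s, y), hy, rfl⟩
    · rintro ⟨⟨s', y⟩, hy, rfl⟩
      exact ⟨y, hy⟩
  rw [h]
  exact isOpenMap_fst _ (isOpen_pd _ (A_cont P Q) (A_symm P Q))

theorem S_convex : Convex ℝ (S P Q) := by
  rintro s ⟨y, hy⟩ s' ⟨y', hy'⟩ a b ha hb hab
  refine ⟨a • y + b • y', ?_⟩
  have e : A P Q (a • s + b • s', a • y + b • y') = a • A P Q (s, y) + b • A P Q (s', y') := by
    unfold A
    simp only [map_add, map_smul, smul_add]
    have : (1 : Matrix N N ℝ) = a • 1 + b • 1 := by rw [← add_smul, hab, one_smul]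
    conv_lhs => rw [this]
    abel
  rw [e]
  rcases ha.eq_or_lt with rfl | ha
  · have hb1 : b = 1 := by linarith
    rw [hb1, zero_smul, one_smul, zero_add]
    exact hy'
  rcases hb.eq_or_lt with rfl | hb
  · have ha1 : a = 1 := by linarith
    rw [ha1, zero_smul, one_smul, add_zero]
    exact hy
  exact (hy.smul ha).add (hy'.smul hb)

end Pool.Agent.X288.DM
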