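import Pool.Agent.X288.DM.Smooth

/-!
# Double Markovian correlation models of full dimension
-/

set_option autoImplicit false
set_option linter.unusedSectionVars false

open Matrix Filter Topology
open scoped ContDiff

namespace Pool.Agent.X288.DM

variable {N : Type*} [Fintype N] [DecidableEq N]

/-- The double Markovian correlation model `M₁(G, H)`: positive definite matrices `σ` with unit
diagonal such that `(σ⁻¹) i j = 0` for all non-edges `ij` of `G` and `σ i j = 0` for all non-edges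
`ij` of `H`. -/
def Model (G H : SimpleGraph N) : Set (N → N → ℝ) :=
  {σ | (Matrix.of σ).PosDef ∧ (∀ i, σ i i = 1) ∧
    (∀ i j, i ≠ j → ¬ G.Adj i j → (Matrix.of σ)⁻¹ i j = 0) ∧
    (∀ i j, i ≠ j → ¬ H.Adj i j → σ i j = 0)}

/-- `M` contains an immersed piece of dimension `d`: there is a `C¹` map from a nonempty open
subset of `ℝ^d` into `M` with injective derivatives. For semialgebraic `M` this says that the
dimension of `M` is at least `d`. -/
def HasPiece {E : Type*} [NormedAddCommGroup E] [NormedSpace ℝ E] (M : Set E) (d : ℕ) : Prop :=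
  ∃ (U : Set (Fin d → ℝ)) (φ : (Fin d → ℝ) → E), IsOpen U ∧ U.Nonempty ∧ ContDiffOn ℝ 1 φ U ∧
    (∀ u ∈ U, Function.Injective (fderiv ℝ φ u)) ∧ ∀ u ∈ U, φ u ∈ M

/-- The Zariski closure of `M` is irreducible (for nonempty `M`): the ideal of all polynomials in
the matrix entries which vanish on `M` is prime. -/
def ZariskiIrreducible (M : Set (N → N → ℝ)) : Prop :=
  ∀ p q : MvPolynomial (N × N) ℝ,
    (∀ σ ∈ M, MvPolynomial.eval (fun x => σ x.1 x.2) (p * q) = 0) →
    (∀ σ ∈ M, MvPolynomial.eval (fun x => σ x.1 x.2) p = 0) ∨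
    (∀ σ ∈ M, MvPolynomial.eval (fun x => σ x.1 x.2) q = 0)

theorem exists_rep (e : Sym2 N) : ∃ x : N × N, s(x.1, x.2) = e := by
  induction e using Sym2.ind with
  | _ i j => exact ⟨(i, j), rfl⟩

noncomputable def rep (e : Sym2 N) : N × N := (exists_rep e).choose

theorem rep_spec (e : Sym2 N) : s((rep e).1, (rep e).2) = e := (exists_rep e).choose_spec

variable (P Q : Set (Sym2 N)) [Fintype P] [Fintype Q]

/-- restriction to the entries in `P` -/
noncomputable def res : (N → N → ℝ) →ₗ[ℝ] (P → ℝ) where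
  toFun σ e := σ (rep e.1).1 (rep e.1).2
  map_add' _ _ := rfl
  map_smul' _ _ := rfl

theorem res_apply {σ : N → N → ℝ} (hσ : ∀ i j, σ i j = σ j i) {i j : N} (h : s(i, j) ∈ P) :
    res P σ ⟨s(i, j), h⟩ = σ i j := by
  show σ (rep s(i, j)).1 (rep s(i, j)).2 = σ i j
  have h1 := rep_spec s(i, j)
  rw [Sym2.eq_iff] at h1
  rcases h1 with ⟨h1, h2⟩ | ⟨h1, h2⟩
  · rw [h1, h2]
  · rw [h1, h2, hσ]

theorem Phi_symm (s : P → ℝ) (i j : N) : Phi P Q s i j = Phi P Q s j i := by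
  have := (A_symm P Q (s, Y P Q s)).apply i j
  unfold Phi
  simpa using this.symm

theorem res_Phi (hP : ∀ e ∈ P, ¬ e.IsDiag) (hPQ : Disjoint P Q) (s : P → ℝ) :
    res P (Phi P Q s) = s := by
  funext ⟨e, he⟩
  induction e using Sym2.ind with
  | _ i j =>
    rw [res_apply P (Phi_symm P Q s) he]
    have hne : i ≠ j := fun h => hP _ he (by rw [h]; simp)
    have hnQ : s(i, j) ∉ Q := fun h => Set.disjoint_left.1 hPQ he h
    simp [Phi, A, mat_mem s he, mat_not _ hnQ, one_apply_ne hne]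

/-- the parameters of the model -/
def Z (H : SimpleGraph N) : Set (P → ℝ) :=
  {s | s ∈ S P Q ∧ ∀ e : Q, e.1 ∉ H.edgeSet → Y P Q s e = 0}

/-- If the parameters of the model contain an open set then they are everything. -/
theorem Z_eq (hP : ∀ e ∈ P, ¬ e.IsDiag) (hQ : ∀ e ∈ Q, ¬ e.IsDiag) (hPQ : Disjoint P Q)
    (H : SimpleGraph N) {s₀ : P → ℝ} (h0 : s₀ ∈ S P Q) (h : ∀ᶠ s in 𝓝 s₀, s ∈ Z P Q H) :
    Z P Q H = S P Q := by
  apply Set.Subset.antisymm (fun s hs => hs.1)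
  intro s hs
  refine ⟨hs, fun e he => ?_⟩
  have ha : AnalyticOnNhd ℝ (fun s => Y P Q s e) (S P Q) := by
    intro x hx
    have h1 := Y_contDiffAt P Q hP hQ hPQ hx
    exact (contDiffAt_pi.1 h1 e).analyticAt
  have h2 : (fun s => Y P Q s e) =ᶠ[𝓝 s₀] 0 := by
    filter_upwards [h] with x hx
    exact hx.2 e he
  exact ha.eqOn_zero_of_preconnected_of_eventuallyEq_zero (S_convex P Q).isPreconnected h0 h2 hs

theorem poly_analytic (hP : ∀ e ∈ P, ¬ e.IsDiag) (hQ : ∀ e ∈ Q, ¬ e.IsDiag) (hPQ : Disjoint P Q)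
    (p : MvPolynomial (N × N) ℝ) :
    AnalyticOnNhd ℝ (fun s => MvPolynomial.eval (fun x : N × N => Phi P Q s x.1 x.2) p)
      (S P Q) := by
  intro s hs
  have h1 := Phi_contDiffAt P Q hP hQ hPQ hs
  have h2 : ∀ x : N × N, AnalyticAt ℝ (fun s => Phi P Q s x.1 x.2) s := by
    intro x
    exact (contDiffAt_pi.1 (contDiffAt_pi.1 h1 x.1) x.2).analyticAt
  have h3 := AnalyticAt.aeval_mvPolynomial (f := fun s (x : N × N) => Phi P Q s x.1 x.2) h2 p
  simpa [MvPolynomial.aeval_eq_eval] using h3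

theorem irreducible_of_eq (hP : ∀ e ∈ P, ¬ e.IsDiag) (hQ : ∀ e ∈ Q, ¬ e.IsDiag)
    (hPQ : Disjoint P Q) {M : Set (N → N → ℝ)} (hM : M = Phi P Q '' S P Q) :
    ZariskiIrreducible M := by
  intro p q h
  by_contra hc
  rw [not_or] at hc
  obtain ⟨h1, h2⟩ := hc
  push Not at h1 h2
  obtain ⟨σ₁, hσ₁, hp⟩ := h1
  obtain ⟨σ₂, hσ₂, hq⟩ := h2
  rw [hM] at hσ₁ hσ₂
  obtain ⟨s₁, hs₁, rfl⟩ := hσ₁
  obtain ⟨s₂, hs₂, rfl⟩ := hσ₂
  have ap := poly_analytic P Q hP hQ hPQ p
  have aq := poly_analytic P Q hP hQ hPQ q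
  have h3 : ∀ᶠ s in 𝓝 s₁, MvPolynomial.eval (fun x : N × N => Phi P Q s x.1 x.2) p ≠ 0 :=
    (ap s₁ hs₁).continuousAt.eventually_ne hp
  have h4 : (fun s => MvPolynomial.eval (fun x : N × N => Phi P Q s x.1 x.2) q) =ᶠ[𝓝 s₁] 0 := by
    filter_upwards [h3, (S_open P Q).mem_nhds hs₁] with s hs hsS
    have h5 := h (Phi P Q s) (by rw [hM]; exact ⟨s, hsS, rfl⟩)
    rw [map_mul] at h5
    exact (mul_eq_zero.1 h5).resolve_left hs
  exact hq (aq.eqOn_zero_of_preconnected_of_eventuallyEq_zero (S_convex P Q).isPreconnected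
    hs₁ h4 hs₂)

variable (G H : SimpleGraph N)

theorem model_eq [Fintype (G ⊓ H).edgeSet] [Fintype Gᶜ.edgeSet] :
    Model G H = Phi (G ⊓ H).edgeSet Gᶜ.edgeSet '' Z (G ⊓ H).edgeSet Gᶜ.edgeSet H := by
  have hP : ∀ e ∈ (G ⊓ H).edgeSet, ¬ e.IsDiag := fun e he => (G ⊓ H).not_isDiag_of_mem_edgeSet he
  have hQ : ∀ e ∈ Gᶜ.edgeSet, ¬ e.IsDiag := fun e he => Gᶜ.not_isDiag_of_mem_edgeSet he
  have hPQ : Disjoint (G ⊓ H).edgeSet Gᶜ.edgeSet := by
    rw [Set.disjoint_left]
    intro e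
    induction e using Sym2.ind with
    | _ i j =>
      rw [SimpleGraph.mem_edgeSet, SimpleGraph.mem_edgeSet, SimpleGraph.compl_adj]
      exact fun h h' => h'.2 h.1
  ext σ
  constructor
  · rintro ⟨h1, h2, h3, h4⟩
    have hσ : ∀ i j, σ i j = σ j i := fun i j => by
      have := h1.isHermitian.apply j i
      simpa using this
    have hA : A (G ⊓ H).edgeSet Gᶜ.edgeSet (res _ σ, res _ σ) = Matrix.of σ := by
      ext i j
      rcases eq_or_ne i j with rfl | hij
      · rw [A_diag _ _ hP hQ, of_apply, h2]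
      · have e1 : A (G ⊓ H).edgeSet Gᶜ.edgeSet (res _ σ, res _ σ) i j =
            mat (G ⊓ H).edgeSet (res _ σ) i j + mat Gᶜ.edgeSet (res _ σ) i j := by
          simp [A, one_apply_ne hij]
        rw [e1, of_apply]
        by_cases hG : G.Adj i j
        · have hn : s(i, j) ∉ Gᶜ.edgeSet := by
            rw [SimpleGraph.mem_edgeSet, SimpleGraph.compl_adj]
            exact fun h => h.2 hG
          rw [mat_not _ hn, add_zero]
          by_cases hH : H.Adj i j
          · have hp : s(i, j) ∈ (G ⊓ H).edgeSet := by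
              rw [SimpleGraph.mem_edgeSet]; exact ⟨hG, hH⟩
            rw [mat_mem _ hp, res_apply _ hσ]
          · have hp : s(i, j) ∉ (G ⊓ H).edgeSet := by
              rw [SimpleGraph.mem_edgeSet]; exact fun h => hH h.2
            rw [mat_not _ hp, h4 i j hij hH]
        · have hp : s(i, j) ∉ (G ⊓ H).edgeSet := by
            rw [SimpleGraph.mem_edgeSet]; exact fun h => hG h.1
          have hq : s(i, j) ∈ Gᶜ.edgeSet := by
            rw [SimpleGraph.mem_edgeSet, SimpleGraph.compl_adj]; exact ⟨hij, hG⟩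
          rw [mat_not _ hp, zero_add, mat_mem _ hq, res_apply _ hσ]
    have hF : F (G ⊓ H).edgeSet Gᶜ.edgeSet (res _ σ, res _ σ) = 0 := by
      funext e
      unfold F
      rw [hA]
      show ((Matrix.of σ)⁻¹ * mat Gᶜ.edgeSet (Pi.single e 1)).trace = 0
      rw [trace]
      apply Finset.sum_eq_zero
      intro i _
      rw [diag_apply, mul_apply]
      apply Finset.sum_eq_zero
      intro j _
      by_cases hq : s(j, i) ∈ Gᶜ.edgeSet
      · rw [SimpleGraph.mem_edgeSet, SimpleGraph.compl_adj] at hq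
        rw [h3 i j hq.1.symm (fun h => hq.2 h.symm), zero_mul]
      · rw [mat_not _ hq, mul_zero]
    have hY : Y (G ⊓ H).edgeSet Gᶜ.edgeSet (res _ σ) = res _ σ :=
      Y_eq _ _ (by rw [hA]; exact h1) hF
    refine ⟨res _ σ, ⟨⟨res _ σ, by rw [hA]; exact h1⟩, ?_⟩, ?_⟩
    · rintro ⟨e, he⟩ heH
      rw [hY]
      induction e using Sym2.ind with
      | _ i j =>
        rw [res_apply _ hσ]
        have hij : i ≠ j := fun h => hQ _ he (by rw [h]; simp)
        exact h4 i j hij heH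
    · funext i j
      show A _ _ (_, Y _ _ _) i j = σ i j
      rw [hY, hA, of_apply]
  · rintro ⟨s, ⟨hs, hz⟩, rfl⟩
    obtain ⟨h1, h2⟩ := Y_spec _ _ hP hQ hPQ hs
    refine ⟨h1, fun i => A_diag _ _ hP hQ _ i, ?_, ?_⟩
    · intro i j hij hG
      have hq : s(i, j) ∈ Gᶜ.edgeSet := by
        rw [SimpleGraph.mem_edgeSet, SimpleGraph.compl_adj]; exact ⟨hij, hG⟩
      have h3 := congrFun h2 ⟨s(i, j), hq⟩
      set K := (A (G ⊓ H).edgeSet Gᶜ.edgeSet (s, Y _ _ s))⁻¹ with hK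
      have hKs : K j i = K i j := by
        have := h1.inv.isHermitian.apply i j
        simpa using this
      have h4 : (K * mat Gᶜ.edgeSet (Pi.single ⟨s(i, j), hq⟩ 1)).trace = K i j + K j i := by
        have e1 : mat Gᶜ.edgeSet (Pi.single ⟨s(i, j), hq⟩ 1) =
            Matrix.single i j (1 : ℝ) + Matrix.single j i 1 := by
          ext k l
          by_cases hkl : s(k, l) ∈ Gᶜ.edgeSet
          · rw [mat_mem _ hkl, Matrix.add_apply, Pi.single_apply]
            by_cases he : s(k, l) = s(i, j)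
            · rw [if_pos (Subtype.ext he)]
              rw [Sym2.eq_iff] at he
              rcases he with ⟨rfl, rfl⟩ | ⟨rfl, rfl⟩
              · rw [Matrix.single_apply_same, Matrix.single_apply_of_ne _ _ _ _ _
                  (fun h => hij h.1.symm), add_zero]
              · rw [Matrix.single_apply_same, Matrix.single_apply_of_ne _ _ _ _ _
                  (fun h => hij h.1), zero_add]
            · rw [if_neg (fun h => he (congrArg Subtype.val h)),
                Matrix.single_apply_of_ne _ _ _ _ _ (fun h => he (by rw [h.1, h.2])),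
                Matrix.single_apply_of_ne _ _ _ _ _
                  (fun h => he (by rw [← h.1, ← h.2, Sym2.eq_swap])), add_zero]
          · rw [mat_not _ hkl, Matrix.add_apply,
              Matrix.single_apply_of_ne _ _ _ _ _ (fun h => hkl (by rw [← h.1, ← h.2]; exact hq)),
              Matrix.single_apply_of_ne _ _ _ _ _
                (fun h => hkl (by rw [← h.1, ← h.2, Sym2.eq_swap]; exact hq)), add_zero]
        rw [e1, mul_add, trace_add, trace_mul_single, trace_mul_single, MulOpposite.op_one,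
          one_smul, one_smul, add_comm]
      have h5 : K i j + K j i = 0 := by
        rw [← h4]
        exact h3
      rw [hKs] at h5
      have h6 : K i j = 0 := by linarith
      exact h6
    · intro i j hij hH
      have hp : s(i, j) ∉ (G ⊓ H).edgeSet := by
        rw [SimpleGraph.mem_edgeSet]; exact fun h => hH h.2
      have e1 : Phi (G ⊓ H).edgeSet Gᶜ.edgeSet s i j = mat Gᶜ.edgeSet (Y _ _ s) i j := by
        simp [Phi, A, one_apply_ne hij, mat_not _ hp]
      rw [e1]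
      by_cases hq : s(i, j) ∈ Gᶜ.edgeSet
      · rw [mat_mem _ hq]
        exact hz _ hH
      · rw [mat_not _ hq]

theorem main [Fintype (G ⊓ H).edgeSet] [Fintype Gᶜ.edgeSet]
    (hdim : HasPiece (Model G H) (Fintype.card (G ⊓ H).edgeSet)) :
    ∃ (S : Set ((G ⊓ H).edgeSet → ℝ)) (f : ((G ⊓ H).edgeSet → ℝ) → N → N → ℝ),
      IsOpen S ∧ Convex ℝ S ∧ S.Nonempty ∧ ContDiffOn ℝ ω f S ∧
      (∀ s ∈ S, ∀ i j (h : (G ⊓ H).Adj i j), f s i j = s ⟨s(i, j), h⟩) ∧
      Model G H = f '' S ∧ ZariskiIrreducible (Model G H) := by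
  have hP : ∀ e ∈ (G ⊓ H).edgeSet, ¬ e.IsDiag := fun e he => (G ⊓ H).not_isDiag_of_mem_edgeSet he
  have hQ : ∀ e ∈ Gᶜ.edgeSet, ¬ e.IsDiag := fun e he => Gᶜ.not_isDiag_of_mem_edgeSet he
  have hPQ : Disjoint (G ⊓ H).edgeSet Gᶜ.edgeSet := by
    rw [Set.disjoint_left]
    intro e
    induction e using Sym2.ind with
    | _ i j =>
      rw [SimpleGraph.mem_edgeSet, SimpleGraph.mem_edgeSet, SimpleGraph.compl_adj]
      exact fun h h' => h'.2 h.1
  obtain ⟨U, φ, hU, ⟨u₀, hu₀⟩, hφ, hinj, hmem⟩ := hdim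
  let r := (res (G ⊓ H).edgeSet).toContinuousLinearMap
  have hfZ : ∀ u ∈ U, r (φ u) ∈ Z (G ⊓ H).edgeSet Gᶜ.edgeSet H ∧
      φ u = Phi (G ⊓ H).edgeSet Gᶜ.edgeSet (r (φ u)) := by
    intro u hu
    have h1 := hmem u hu
    rw [model_eq] at h1
    obtain ⟨s, hs, hs'⟩ := h1
    have h2 : r (φ u) = s := by
      rw [← hs']
      exact res_Phi _ _ hP hPQ s
    rw [h2]
    exact ⟨hs, hs'.symm⟩
  have h0 : r (φ u₀) ∈ S (G ⊓ H).edgeSet Gᶜ.edgeSet := (hfZ u₀ hu₀).1.1
  have hφ0 : ContDiffAt ℝ 1 φ u₀ := hφ.contDiffAt (hU.mem_nhds hu₀)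
  have hφs : HasStrictFDerivAt φ (fderiv ℝ φ u₀) u₀ := hφ0.hasStrictFDerivAt one_ne_zero
  have hfs : HasStrictFDerivAt (fun u => r (φ u)) (r.comp (fderiv ℝ φ u₀)) u₀ :=
    r.hasStrictFDerivAt.comp u₀ hφs
  have hΦ := (Phi_contDiffAt _ _ hP hQ hPQ h0).differentiableAt (by simp)
  have hcomp : fderiv ℝ φ u₀ = (fderiv ℝ (Phi (G ⊓ H).edgeSet Gᶜ.edgeSet) (r (φ u₀))).comp
      (r.comp (fderiv ℝ φ u₀)) := by
    have h1 : φ =ᶠ[𝓝 u₀] fun u => Phi (G ⊓ H).edgeSet Gᶜ.edgeSet (r (φ u)) := by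
      filter_upwards [hU.mem_nhds hu₀] with u hu
      exact (hfZ u hu).2
    have h2 : HasFDerivAt (fun u => Phi (G ⊓ H).edgeSet Gᶜ.edgeSet (r (φ u)))
        ((fderiv ℝ (Phi (G ⊓ H).edgeSet Gᶜ.edgeSet) (r (φ u₀))).comp
          (r.comp (fderiv ℝ φ u₀))) u₀ := by
      have h3 : HasFDerivAt (Phi (G ⊓ H).edgeSet Gᶜ.edgeSet)
        (fderiv ℝ (Phi (G ⊓ H).edgeSet Gᶜ.edgeSet) (r (φ u₀)))
        ((fun u => r (φ u)) u₀) := hΦ.hasFDerivAt
      exact h3.comp u₀ hfs.hasFDerivAt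
    exact h1.fderiv_eq.trans h2.fderiv
  have hinj' : Function.Injective
      ((r.comp (fderiv ℝ φ u₀) : (Fin (Fintype.card (G ⊓ H).edgeSet) → ℝ) →L[ℝ] _) :
        (Fin (Fintype.card (G ⊓ H).edgeSet) → ℝ) →ₗ[ℝ] ((G ⊓ H).edgeSet → ℝ)) := by
    rw [← LinearMap.ker_eq_bot, LinearMap.ker_eq_bot']
    intro v hv
    have h1 : fderiv ℝ φ u₀ v = 0 := by
      rw [hcomp, ContinuousLinearMap.comp_apply]
      have : (r.comp (fderiv ℝ φ u₀)) v = 0 := hv
      rw [this, map_zero]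
    exact hinj u₀ hu₀ (by rw [h1, map_zero])
  have hsurj := (LinearMap.injective_iff_surjective_of_finrank_eq_finrank
    (by rw [Module.finrank_fin_fun, Module.finrank_fintype_fun_eq_card])).1 hinj'
  have hmap := hfs.map_nhds_eq_of_surj (LinearMap.range_eq_top.2 hsurj)
  have hev : ∀ᶠ s in 𝓝 (r (φ u₀)), s ∈ Z (G ⊓ H).edgeSet Gᶜ.edgeSet H := by
    rw [← hmap, eventually_map]
    filter_upwards [hU.mem_nhds hu₀] with u hu
    exact (hfZ u hu).1
  have hZ := Z_eq _ _ hP hQ hPQ H h0 hev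
  refine ⟨S (G ⊓ H).edgeSet Gᶜ.edgeSet, Phi (G ⊓ H).edgeSet Gᶜ.edgeSet, S_open _ _,
    S_convex _ _, ⟨_, h0⟩, ?_, ?_, by rw [model_eq, hZ],
    irreducible_of_eq _ _ hP hQ hPQ (by rw [model_eq, hZ])⟩
  · intro s hs
    exact (Phi_contDiffAt _ _ hP hQ hPQ hs).contDiffWithinAt
  · intro s _ i j h
    have h1 := congrFun (res_Phi _ _ hP hPQ s) ⟨s(i, j), h⟩
    exact (res_apply _ (Phi_symm _ _ s) h).symm.trans h1

end Pool.Agent.X288.DM
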