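import Pool.Agent.X288.DM.Comp

/-!
# The completion map is analytic
-/

set_option autoImplicit false
set_option linter.unusedSectionVars false

open Matrix Filter Topology
open scoped ContDiff

namespace Pool.Agent.X288.DM

variable {N : Type*} [Fintype N] [DecidableEq N]

variable (P Q : Set (Sym2 N)) [Fintype P] [Fintype Q]

section smooth

attribute [local instance] Matrix.linftyOpNormedRing Matrix.linftyOpNormedAlgebra

/-- derivative of `A` -/
noncomputable def A' : ((P → ℝ) × (Q → ℝ)) →L[ℝ] Matrix N N ℝ :=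
  ((mat P).toContinuousLinearMap).comp (ContinuousLinearMap.fst ℝ _ _) +
    ((mat Q).toContinuousLinearMap).comp (ContinuousLinearMap.snd ℝ _ _)

theorem A_eq (p : (P → ℝ) × (Q → ℝ)) : A P Q p = 1 + A' P Q p := rfl

noncomputable def L (e : Q) : Matrix N N ℝ →L[ℝ] ℝ :=
  ((traceLinearMap N ℝ ℝ) ∘ₗ (LinearMap.mulRight ℝ (mat Q (Pi.single e 1)))).toContinuousLinearMap

theorem L_apply (e : Q) (M : Matrix N N ℝ) : L Q e M = (M * mat Q (Pi.single e 1)).trace := rfl

theorem F_eq (p : (P → ℝ) × (Q → ℝ)) (e : Q) :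
    F P Q p e = L Q e (Ring.inverse (A P Q p)) := by
  unfold F
  rw [L_apply, nonsing_inv_eq_ringInverse]

theorem A_contDiff : ContDiff ℝ ω (A P Q) := by
  have : A P Q = fun p => 1 + A' P Q p := funext fun p => A_eq P Q p
  rw [this]
  exact contDiff_const.add (A' P Q).contDiff

theorem F_contDiffAt {p : (P → ℝ) × (Q → ℝ)} (h : (A P Q p).PosDef) :
    ContDiffAt ℝ ω (F P Q) p := by
  rw [contDiffAt_pi]
  intro e
  have e1 : (fun p => F P Q p e) = fun p => L Q e (Ring.inverse (A P Q p)) :=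
    funext fun p => F_eq P Q p e
  rw [e1]
  obtain ⟨u, hu⟩ := h.isUnit
  have h1 : ContDiffAt ℝ ω Ring.inverse (A P Q p) := hu ▸ contDiffAt_ringInverse ℝ u
  exact (L Q e).contDiff.contDiffAt.comp p (h1.comp p (A_contDiff P Q).contDiffAt)

theorem F_hasFDerivAt {p : (P → ℝ) × (Q → ℝ)} (h : (A P Q p).PosDef) :
    HasFDerivAt (F P Q) (ContinuousLinearMap.pi fun e => (L Q e).comp
      ((-ContinuousLinearMap.mulLeftRight ℝ (Matrix N N ℝ) (A P Q p)⁻¹ (A P Q p)⁻¹).comp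
        (A' P Q))) p := by
  rw [hasFDerivAt_pi]
  intro e
  have e1 : (fun p => F P Q p e) = fun p => L Q e (Ring.inverse (A P Q p)) :=
    funext fun p => F_eq P Q p e
  rw [e1]
  obtain ⟨u, hu⟩ := h.isUnit
  have hui : ((u⁻¹ : (Matrix N N ℝ)ˣ) : Matrix N N ℝ) = (A P Q p)⁻¹ := by
    rw [← hu, Matrix.coe_units_inv]
  have h1 : HasFDerivAt Ring.inverse
      (-ContinuousLinearMap.mulLeftRight ℝ (Matrix N N ℝ) (A P Q p)⁻¹ (A P Q p)⁻¹)
      (A P Q p) := by
    have := hasFDerivAt_ringInverse (𝕜 := ℝ) u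
    rw [hui, hu] at this
    exact this
  have h2 : HasFDerivAt (A P Q) (A' P Q) p := by
    have : A P Q = fun p => 1 + A' P Q p := funext fun p => A_eq P Q p
    rw [this]
    exact (A' P Q).hasFDerivAt.const_add 1
  exact (L Q e).hasFDerivAt.comp p (h1.comp p h2)

theorem invertible {p : (P → ℝ) × (Q → ℝ)} (h : (A P Q p).PosDef) :
    (fderiv ℝ (F P Q) p ∘L .inr ℝ (P → ℝ) (Q → ℝ)).IsInvertible := by
  rw [(F_hasFDerivAt P Q h).fderiv]
  set f := ((ContinuousLinearMap.pi fun e => (L Q e).comp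
      ((-ContinuousLinearMap.mulLeftRight ℝ (Matrix N N ℝ) (A P Q p)⁻¹ (A P Q p)⁻¹).comp
        (A' P Q))) ∘L .inr ℝ (P → ℝ) (Q → ℝ)) with hf
  have hfe : ∀ δ e, f δ e = -((A P Q p)⁻¹ * mat Q δ * (A P Q p)⁻¹ *
      mat Q (Pi.single e 1)).trace := by
    intro δ e
    have e1 : f δ e = L Q e (-((A P Q p)⁻¹ * (A' P Q (0, δ)) * (A P Q p)⁻¹)) := rfl
    have e2 : A' P Q (0, δ) = mat Q δ := by
      show mat P 0 + mat Q δ = mat Q δ
      rw [map_zero, zero_add]
    rw [e1, e2, L_apply, neg_mul, trace_neg]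
  have inj : Function.Injective (f : (Q → ℝ) →ₗ[ℝ] (Q → ℝ)) := by
    rw [← LinearMap.ker_eq_bot, LinearMap.ker_eq_bot']
    intro δ hδ
    have h1 : ∀ e : Q, ((A P Q p)⁻¹ * mat Q δ * (A P Q p)⁻¹ * mat Q (Pi.single e 1)).trace = 0 := by
      intro e
      have h2 := congrFun hδ e
      have h3 : f δ e = 0 := h2
      rw [hfe] at h3
      exact neg_eq_zero.1 h3
    have h2 := trace_of_single Q h1 δ
    exact mat_inj (eq_zero_of_trace h.inv h.inv (mat_transpose Q δ) h2)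
  refine ⟨(LinearEquiv.ofInjectiveEndo (f : (Q → ℝ) →ₗ[ℝ] (Q → ℝ)) inj).toContinuousLinearEquiv, ?_⟩
  ext δ
  rfl

theorem Y_contDiffAt (hP : ∀ e ∈ P, ¬ e.IsDiag) (hQ : ∀ e ∈ Q, ¬ e.IsDiag) (hPQ : Disjoint P Q)
    {s : P → ℝ} (hs : s ∈ S P Q) : ContDiffAt ℝ ω (Y P Q) s := by
  obtain ⟨h1, h2⟩ := Y_spec P Q hP hQ hPQ hs
  have cdf := F_contDiffAt P Q h1
  have hω : (ω : ℕ∞ω) ≠ 0 := by simp
  have hψ : ContDiffAt ℝ ω (cdf.implicitFunction hω (invertible P Q h1)) s :=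
    cdf.contDiffAt_implicitFunction hω (invertible P Q h1)
  have hψ0 : cdf.implicitFunction hω (invertible P Q h1) s = Y P Q s :=
    cdf.implicitFunction_apply_self hω (invertible P Q h1)
  have ev1 := cdf.eventually_apply_implicitFunction hω (invertible P Q h1)
  have ev2 : ∀ᶠ x in 𝓝 s,
      (A P Q (x, cdf.implicitFunction hω (invertible P Q h1) x)).PosDef := by
    have ho := isOpen_pd _ (A_cont P Q) (A_symm P Q)
    have hc : ContinuousAt (fun x => (x, cdf.implicitFunction hω (invertible P Q h1) x)) s :=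
      continuousAt_id.prodMk hψ.continuousAt
    have hm : (s, cdf.implicitFunction hω (invertible P Q h1) s) ∈
        {x | (A P Q x).PosDef} := by
      show (A P Q (s, cdf.implicitFunction hω (invertible P Q h1) s)).PosDef
      rw [hψ0]
      exact h1
    exact hc.preimage_mem_nhds (ho.mem_nhds hm)
  have hY : Y P Q =ᶠ[𝓝 s] cdf.implicitFunction hω (invertible P Q h1) := by
    filter_upwards [ev1, ev2] with x hx1 hx2
    exact Y_eq P Q hx2 (hx1.trans h2)
  exact hψ.congr_of_eventuallyEq hY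

end smooth

/-- the completion as a function -/
noncomputable def Phi (s : P → ℝ) : N → N → ℝ := fun i j => A P Q (s, Y P Q s) i j

theorem Phi_contDiffAt (hP : ∀ e ∈ P, ¬ e.IsDiag) (hQ : ∀ e ∈ Q, ¬ e.IsDiag) (hPQ : Disjoint P Q)
    {s : P → ℝ} (hs : s ∈ S P Q) : ContDiffAt ℝ ω (Phi P Q) s := by
  have hY := Y_contDiffAt P Q hP hQ hPQ hs
  let ℓP : (P → ℝ) →ₗ[ℝ] (N → N → ℝ) := mat P
  let ℓQ : (Q → ℝ) →ₗ[ℝ] (N → N → ℝ) := mat Q
  let o : N → N → ℝ := (1 : Matrix N N ℝ)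
  have e : Phi P Q = fun s => o + (ℓP.toContinuousLinearMap s +
    ℓQ.toContinuousLinearMap (Y P Q s)) := rfl
  rw [e]
  exact contDiffAt_const.add (ℓP.toContinuousLinearMap.contDiff.contDiffAt.add
    (ℓQ.toContinuousLinearMap.contDiff.contDiffAt.comp s hY))

end Pool.Agent.X288.DM
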